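import Mathlib
import Pool.Agent.LibTwT.PF6

set_option autoImplicit false

namespace Pool.Agent.Results.MP_e734ed_nt.HallForCubes

/-- Let `0 < ε < 3/2`. The proportion of the nonzero integers `m`, `|m| ≤ N`, for which there are
integers `x`, `y` with `y^2 - x^3 = m^3` and `|y^2 - x^3| < |x|^(3/2 - ε)` tends to `0` as
`N → ∞`. -/
theorem result (ε : ℝ) (hε : 0 < ε) (hε' : ε < 3 / 2) :
    Filter.Tendsto (fun N : ℕ => (({m : ℤ | m ≠ 0 ∧ |m| ≤ N ∧ ∃ x y : ℤ,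
        y ^ 2 - x ^ 3 = m ^ 3 ∧ |((y ^ 2 - x ^ 3 : ℤ) : ℝ)| < |(x : ℝ)| ^ (3 / 2 - ε)} : Set ℤ).ncard : ℝ) / N)
      Filter.atTop (nhds 0) :=
  TwT.hall_all ε hε hε'

end Pool.Agent.Results.MP_e734ed_nt.HallForCubes
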