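import Mathlib
import Pool.Agent.LibSQ78.R13b

set_option autoImplicit false

namespace Pool.Agent.Results.MP_e734ed_nt.HallForSquares

/-- Power saving for the number of all integral points with `x ≠ 0`, `log |x| ≤ N ^ 0.0025` on all
the curves `y ^ 2 = x ^ 3 + m ^ 2`, `1 ≤ m ≤ N`. An element `t = (m, x, y)`. -/
theorem result :
    ∃ C : ℝ, 0 < C ∧ ∀ N : ℝ, 1 ≤ N →
      {t : ℤ × ℤ × ℤ | 1 ≤ t.1 ∧ (t.1 : ℝ) ≤ N ∧ t.2.1 ≠ 0 ∧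
        |(t.2.1 : ℝ)| ≤ Real.exp (N ^ (0.0025 : ℝ)) ∧ t.2.2 ^ 2 = t.2.1 ^ 3 + t.1 ^ 2}.Finite ∧
      ({t : ℤ × ℤ × ℤ | 1 ≤ t.1 ∧ (t.1 : ℝ) ≤ N ∧ t.2.1 ≠ 0 ∧
        |(t.2.1 : ℝ)| ≤ Real.exp (N ^ (0.0025 : ℝ)) ∧
        t.2.2 ^ 2 = t.2.1 ^ 3 + t.1 ^ 2}.ncard : ℝ) ≤ C * N ^ (0.99995 : ℝ) :=
  LibSQ.hall_squares

end Pool.Agent.Results.MP_e734ed_nt.HallForSquares
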